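import Pool.Agent.X41.Inf3.Small

set_option autoImplicit false

/-!
# The algebras `BN K N`
-/

namespace Pool.Agent.X41.Inf3

open MvPolynomial Finset

universe u

variable (K : Type u) [Field K] (N : ℕ)

/-- the exponent `(1, …, 1)` on `0, …, N - 1` -/
noncomputable def ones : ℕ →₀ ℕ := ∑ i ∈ range N, Finsupp.single i 1

lemma ones_apply (j : ℕ) : ones N j = if j < N then 1 else 0 := by
  classical
  simp [ones, Finsupp.finsetSum_apply, Finsupp.single_apply]

lemma ones_degree : ∑ i ∈ (ones N).support, ones N i = N := by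
  classical
  have h : (ones N).support = range N := by
    ext i
    simp [ones_apply]
  rw [h]
  have : ∀ i ∈ range N, ones N i = 1 := by
    intro i hi
    simp [ones_apply, Finset.mem_range.1 hi]
  rw [Finset.sum_congr rfl this]
  simp

/-- the coefficient of `X_0 ⋯ X_{N-1}` -/
noncomputable def tau : MvPolynomial ℕ K →ₗ[K] K := lcoeff K (ones N)

variable {K N}

lemma tau_apply (p : MvPolynomial ℕ K) : tau K N p = coeff (ones N) p := rfl

lemma tau_sq (j : ℕ) (p : MvPolynomial ℕ K) : tau K N (X j * (X j * p)) = 0 := by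
  classical
  rw [tau_apply, coeff_X_mul', coeff_X_mul']
  by_cases h : j ∈ (ones N).support
  · rw [if_pos h, if_neg]
    simp [Finsupp.mem_support_iff, ones_apply]
    split_ifs <;> simp
  · rw [if_neg h]

lemma tau_deg {p : MvPolynomial ℕ K} (h : p.totalDegree < N) : tau K N p = 0 := by
  rw [tau_apply]
  apply coeff_eq_zero_of_totalDegree_lt
  rw [ones_degree]
  exact h

lemma tau_prod : tau K N (∏ i ∈ range N, X i) = 1 := by
  have h : ∀ M : ℕ, (∏ i ∈ range M, (X i : MvPolynomial ℕ K)) = monomial (ones M) 1 := by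
    intro M
    induction M with
    | zero => simp [ones]
    | succ M ih =>
        have e : ones (M + 1) = ones M + Finsupp.single M 1 := Finset.sum_range_succ _ _
        rw [Finset.prod_range_succ, ih, e, X, monomial_mul, mul_one]
  rw [h, tau_apply, coeff_monomial, if_pos rfl]

variable (K N)

/-- `s(v) = ∑ X_j v_j` -/
noncomputable def sm : (ℕ → MvPolynomial ℕ K) →ₗ[MvPolynomial ℕ K] MvPolynomial ℕ K :=
  ∑ j ∈ range N, (X j : MvPolynomial ℕ K) • LinearMap.proj j

/-- the bilinear form `Ψ(v, w) = ∑_{j < k} τ(X_j X_k v_j w_k)` -/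
noncomputable def Psi : (ℕ → MvPolynomial ℕ K) →ₗ[K] (ℕ → MvPolynomial ℕ K) →ₗ[K] K :=
  LinearMap.mk₂ K (fun v w => ∑ j ∈ range N, ∑ k ∈ range N,
    if j < k then tau K N (X j * (X k * (v j * w k))) else 0)
    (by
      intro v v' w
      simp only [← Finset.sum_add_distrib]
      refine Finset.sum_congr rfl fun j _ => Finset.sum_congr rfl fun k _ => ?_
      split_ifs
      · simp only [Pi.add_apply, add_mul, mul_add, map_add]
      · simp)
    (by
      intro c v w
      simp only [Finset.smul_sum]
      refine Finset.sum_congr rfl fun j _ => Finset.sum_congr rfl fun k _ => ?_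
      split_ifs
      · simp only [Pi.smul_apply, smul_mul_assoc, mul_smul_comm, map_smul]
      · simp)
    (by
      intro v w w'
      simp only [← Finset.sum_add_distrib]
      refine Finset.sum_congr rfl fun j _ => Finset.sum_congr rfl fun k _ => ?_
      split_ifs
      · simp only [Pi.add_apply, mul_add, map_add]
      · simp)
    (by
      intro c v w
      simp only [Finset.smul_sum]
      refine Finset.sum_congr rfl fun j _ => Finset.sum_congr rfl fun k _ => ?_
      split_ifs
      · simp only [Pi.smul_apply, mul_smul_comm, map_smul]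
      · simp)

variable {K N}

lemma sm_apply (v : ℕ → MvPolynomial ℕ K) : sm K N v = ∑ j ∈ range N, X j * v j := by
  simp [sm]

lemma Psi_apply (v w : ℕ → MvPolynomial ℕ K) : Psi K N v w = ∑ j ∈ range N, ∑ k ∈ range N,
    if j < k then tau K N (X j * (X k * (v j * w k))) else 0 := rfl

lemma Psi_smul (p : MvPolynomial ℕ K) (v w : ℕ → MvPolynomial ℕ K) :
    Psi K N (p • v) w = Psi K N v (p • w) := by
  rw [Psi_apply, Psi_apply]
  refine Finset.sum_congr rfl fun j _ => Finset.sum_congr rfl fun k _ => ?_
  split_ifs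
  · congr 3
    simp only [Pi.smul_apply, smul_eq_mul]
    ring
  · rfl

lemma Psi_add_swap (v w : ℕ → MvPolynomial ℕ K) :
    Psi K N v w + Psi K N w v = tau K N (sm K N v * sm K N w) := by
  have h2 : Psi K N w v = ∑ j ∈ range N, ∑ k ∈ range N,
      if k < j then tau K N (X j * (X k * (v j * w k))) else 0 := by
    rw [Psi_apply, Finset.sum_comm]
    refine Finset.sum_congr rfl fun j _ => Finset.sum_congr rfl fun k _ => ?_
    split_ifs
    · congr 1
      ring
    · rfl
  rw [h2, Psi_apply, sm_apply, sm_apply, Finset.sum_mul_sum, map_sum, ← Finset.sum_add_distrib]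
  refine Finset.sum_congr rfl fun j _ => ?_
  rw [map_sum, ← Finset.sum_add_distrib]
  refine Finset.sum_congr rfl fun k _ => ?_
  have e : (X j * v j * (X k * w k) : MvPolynomial ℕ K) = X j * (X k * (v j * w k)) := by ring
  rw [e]
  rcases lt_trichotomy j k with h | h | h
  · rw [if_pos h, if_neg (not_lt.2 h.le), add_zero]
  · subst h
    rw [if_neg (lt_irrefl _), add_zero, tau_sq]
  · rw [if_neg (not_lt.2 h.le), if_pos h, zero_add]

variable (K N)

/-- the underlying space: pairs `(v, c)` such that `s(v)` has degree at most `1` -/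
def bnSub : Submodule K ((ℕ → MvPolynomial ℕ K) × K) where
  carrier := {p | (sm K N p.1).totalDegree ≤ 1}
  add_mem' := by
    intro p q hp hq
    simp only [Set.mem_ofPred_eq, Prod.fst_add, map_add] at *
    exact (totalDegree_add _ _).trans (max_le hp hq)
  zero_mem' := by simp
  smul_mem' := by
    intro c p hp
    simp only [Set.mem_ofPred_eq, Prod.smul_fst] at *
    have : sm K N (c • p.1) = c • sm K N p.1 := by
      rw [sm_apply, sm_apply, Finset.smul_sum]
      refine Finset.sum_congr rfl fun j _ => ?_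
      simp
    rw [this]
    exact (totalDegree_smul_le _ _).trans hp

/-- the algebra `B_N` -/
def BN : Type u := bnSub K N

noncomputable instance : AddCommGroup (BN K N) := inferInstanceAs (AddCommGroup (bnSub K N))

noncomputable instance : Module K (BN K N) := inferInstanceAs (Module K (bnSub K N))

variable [CharP K 2]

noncomputable instance : Mul (BN K N) :=
  ⟨fun p q => ⟨(sm K N p.1.1 • q.1.1 + sm K N q.1.1 • p.1.1, Psi K N p.1.1 q.1.1), by
    change (sm K N (sm K N p.1.1 • q.1.1 + sm K N q.1.1 • p.1.1)).totalDegree ≤ 1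
    have : sm K N (sm K N p.1.1 • q.1.1 + sm K N q.1.1 • p.1.1) = 0 := by
      rw [map_add, map_smul, map_smul, smul_eq_mul, smul_eq_mul, mul_comm]
      exact CharTwo.add_self_eq_zero _
    rw [this]
    simp⟩⟩

variable {K N}

lemma BN.ext {p q : BN K N} (h : p.1.1 = q.1.1) (h' : p.1.2 = q.1.2) : p = q :=
  Subtype.ext (Prod.ext h h')

lemma BN.mul_fst (p q : BN K N) :
    (p * q).1.1 = sm K N p.1.1 • q.1.1 + sm K N q.1.1 • p.1.1 := rfl
lemma BN.mul_snd (p q : BN K N) : (p * q).1.2 = Psi K N p.1.1 q.1.1 := rfl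
omit [CharP K 2] in
lemma BN.add_fst (p q : BN K N) : (p + q).1.1 = p.1.1 + q.1.1 := rfl
omit [CharP K 2] in
lemma BN.add_snd (p q : BN K N) : (p + q).1.2 = p.1.2 + q.1.2 := rfl
omit [CharP K 2] in
lemma BN.smul_fst (c : K) (q : BN K N) : (c • q).1.1 = c • q.1.1 := rfl
omit [CharP K 2] in
lemma BN.smul_snd (c : K) (q : BN K N) : (c • q).1.2 = c • q.1.2 := rfl
omit [CharP K 2] in
lemma BN.zero_fst : (0 : BN K N).1.1 = 0 := rfl
omit [CharP K 2] in
lemma BN.zero_snd : (0 : BN K N).1.2 = 0 := rfl

omit [CharP K 2] in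
lemma sm_smul (c : K) (v : ℕ → MvPolynomial ℕ K) : sm K N (c • v) = c • sm K N v := by
  rw [sm_apply, sm_apply, Finset.smul_sum]
  refine Finset.sum_congr rfl fun j _ => ?_
  simp

noncomputable instance : NonUnitalNonAssocRing (BN K N) where
  left_distrib p q r := by
    apply BN.ext
    · simp only [BN.mul_fst, BN.add_fst, map_add, add_smul, smul_add]; abel
    · simp only [BN.mul_snd, BN.add_fst, BN.add_snd, map_add]
  right_distrib p q r := by
    apply BN.ext
    · simp only [BN.mul_fst, BN.add_fst, map_add, add_smul, smul_add]; abel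
    · simp only [BN.mul_snd, BN.add_fst, BN.add_snd, map_add, LinearMap.add_apply]
  zero_mul p := by
    apply BN.ext
    · simp [BN.mul_fst, BN.zero_fst]
    · simp [BN.mul_snd, BN.zero_fst, BN.zero_snd]
  mul_zero p := by
    apply BN.ext
    · simp [BN.mul_fst, BN.zero_fst]
    · simp [BN.mul_snd, BN.zero_fst, BN.zero_snd]

instance : IsScalarTower K (BN K N) (BN K N) where
  smul_assoc c p q := by
    simp only [smul_eq_mul]
    apply BN.ext
    · simp only [BN.mul_fst, BN.smul_fst, sm_smul, smul_add, smul_assoc]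
      rw [smul_comm c (sm K N q.1.1) p.1.1]
    · simp only [BN.mul_snd, BN.smul_fst, BN.smul_snd, map_smul, LinearMap.smul_apply]

instance : SMulCommClass K (BN K N) (BN K N) where
  smul_comm c p q := by
    simp only [smul_eq_mul]
    apply BN.ext
    · simp only [BN.mul_fst, BN.smul_fst, sm_smul, smul_add, smul_assoc]
      rw [smul_comm c (sm K N p.1.1) q.1.1]
    · simp only [BN.mul_snd, BN.smul_fst, BN.smul_snd, map_smul]

/-- the three coordinates -/
noncomputable def bα : BN K N →ₗ[K] MvPolynomial ℕ K where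
  toFun p := sm K N p.1.1
  map_add' p q := by rw [BN.add_fst, map_add]
  map_smul' c p := by rw [BN.smul_fst, sm_smul]; rfl

noncomputable def bβ : BN K N →ₗ[K] (ℕ → MvPolynomial ℕ K) where
  toFun p := p.1.1
  map_add' _ _ := rfl
  map_smul' _ _ := rfl

noncomputable def bγ : BN K N →ₗ[K] K where
  toFun p := p.1.2
  map_add' _ _ := rfl
  map_smul' _ _ := rfl

lemma bα_mul (p q : BN K N) : bα (p * q) = 0 := by
  change sm K N (p * q).1.1 = 0
  rw [BN.mul_fst, map_add, map_smul, map_smul, smul_eq_mul, smul_eq_mul, mul_comm]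
  exact CharTwo.add_self_eq_zero _

lemma bβ_mul (p q : BN K N) : bβ (p * q) = bα p • bβ q + bα q • bβ p := rfl

lemma bγ_mul (p q : BN K N) : bγ (p * q) = Psi K N (bβ p) (bβ q) := rfl

lemma bα_deg (p : BN K N) : (bα p).totalDegree ≤ 1 := p.2

/-! ### degrees -/

omit [CharP K 2] in
lemma al_deg (a : ℕ → MvPolynomial ℕ K) (ha : ∀ x, (a x).totalDegree ≤ 1) (m : FreeMagma ℕ) :
    (aeval a (al K m)).totalDegree ≤ 1 := by
  cases m with
  | of x => simpa [al] using ha x
  | mul a b => simp [al]

omit [CharP K 2] in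
lemma be_deg (a : ℕ → MvPolynomial ℕ K) (ha : ∀ x, (a x).totalDegree ≤ 1) (x : ℕ) :
    ∀ m : FreeMagma ℕ, (aeval a (be K m x)).totalDegree + 1 ≤ m.length
  | FreeMagma.of y => by
      simp only [be]
      split_ifs <;> simp [FreeMagma.length]
  | FreeMagma.mul s t => by
      have h1 := be_deg a ha x s
      have h2 := be_deg a ha x t
      have h3 := al_deg a ha s
      have h4 := al_deg a ha t
      have h5 := s.length_pos
      have h6 := t.length_pos
      have h7 : (FreeMagma.mul s t).length = s.length + t.length := rfl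
      simp only [be, map_add, map_mul]
      have h8 := totalDegree_add (aeval a (al K s) * aeval a (be K t x))
        (aeval a (al K t) * aeval a (be K s x))
      have h9 := totalDegree_mul (aeval a (al K s)) (aeval a (be K t x))
      have h10 := totalDegree_mul (aeval a (al K t)) (aeval a (be K s x))
      have h11 : max (aeval a (al K s) * aeval a (be K t x)).totalDegree
        (aeval a (al K t) * aeval a (be K s x)).totalDegree ≤ s.length + t.length - 1 := by
        apply max_le <;> omega
      omega

omit [CharP K 2] in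
lemma qq_deg (a : ℕ → MvPolynomial ℕ K) (ha : ∀ x, (a x).totalDegree ≤ 1) (x y : ℕ)
    (m : FreeMagma ℕ) (hm : m.length < N) (v w : MvPolynomial ℕ K) (hv : v.totalDegree ≤ 1)
    (hw : w.totalDegree ≤ 1) : tau K N (aeval a (qq K m x y) * v * w) = 0 := by
  cases m with
  | of z => simp [qq]
  | mul s t =>
      apply tau_deg
      have h1 := be_deg a ha x s
      have h2 := be_deg a ha y t
      have h7 : (FreeMagma.mul s t).length = s.length + t.length := rfl
      simp only [qq, map_mul]
      have h3 := totalDegree_mul (aeval a (be K s x) * aeval a (be K t y) * v) w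
      have h4 := totalDegree_mul (aeval a (be K s x) * aeval a (be K t y)) v
      have h5 := totalDegree_mul (aeval a (be K s x)) (aeval a (be K t y))
      omega

omit [CharP K 2] in
lemma qt_deg (a : ℕ → MvPolynomial ℕ K) (ha : ∀ x, (a x).totalDegree ≤ 1) (x y : ℕ)
    (f : FreeNonUnitalNonAssocAlgebra K ℕ) (hf : ∀ m ∈ f.coeff.support, m.length < N)
    (v w : MvPolynomial ℕ K) (hv : v.totalDegree ≤ 1)
    (hw : w.totalDegree ≤ 1) : tau K N (aeval a (qt f x y) * v * w) = 0 := by
  rw [qt, map_sum, Finset.sum_mul, Finset.sum_mul, map_sum]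
  refine Finset.sum_eq_zero fun m hm => ?_
  rw [map_smul, smul_mul_assoc, smul_mul_assoc, map_smul, qq_deg a ha x y m (hf m hm) v w hv hw,
    smul_zero]

/-- **Key step**: `B_N` satisfies all identities of `A3 K` of degree less than `N`. -/
theorem BN_identity [Infinite K] (f : FreeNonUnitalNonAssocAlgebra K ℕ)
    (hf : IsIdentity K (A3 K) f) (hN : ∀ m ∈ f.coeff.support, m.length < N) :
    IsIdentity K (BN K N) f := by
  classical
  intro r
  obtain ⟨n, hn⟩ := exists_bdd_finset f.coeff.support
  set a : ℕ → MvPolynomial ℕ K := fun x => bα (r x) with ha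
  have had : ∀ x, (a x).totalDegree ≤ 1 := fun x => bα_deg (r x)
  apply BN.ext
  · have h := beta_lift (α := (bα : BN K N →ₗ[K] _)) (β := (bβ : BN K N →ₗ[K] _)) bα_mul bβ_mul
      r n f hn
    change bβ (FreeNonUnitalNonAssocAlgebra.lift K r f) = 0
    rw [h]
    refine Finset.sum_eq_zero fun x hx => ?_
    rw [bet_eq_zero hf hn (Finset.mem_range.1 hx), map_zero, zero_smul]
  · have h := gamma_lift (α := (bα : BN K N →ₗ[K] _)) (β := (bβ : BN K N →ₗ[K] _))
      (γ := (bγ : BN K N →ₗ[K] _)) (Ψ := Psi K N) bα_mul bβ_mul bγ_mul Psi_smul r n f hn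
    change bγ (FreeNonUnitalNonAssocAlgebra.lift K r f) = 0
    rw [h]
    have h1 : ∑ m ∈ f.coeff.support, f.coeff m • gl (bγ : BN K N →ₗ[K] K) r m = 0 := by
      refine Finset.sum_eq_zero fun m _ => ?_
      cases m with
      | of x => rw [coeff_of_eq_zero hf hn x, zero_smul]
      | mul s t => simp [gl]
    rw [h1, zero_add, ← Finset.sum_product']
    refine Finset.sum_involution (fun p _ => (p.2, p.1)) ?_ ?_ ?_ ?_
    · rintro ⟨x, y⟩ hxy
      rw [Finset.mem_product, Finset.mem_range, Finset.mem_range] at hxy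
      simp only
      have h2 : qt f y x = qt f x y := by
        have := qt_swap hf hn hxy.1 hxy.2
        exact (CharTwo.add_eq_zero.1 this).symm
      rw [h2, Psi_smul _ (bβ (r y)) (bβ (r x)), Psi_add_swap, map_smul, smul_eq_mul]
      exact qt_deg a had x y f hN _ _ (bα_deg (r x)) (bα_deg (r y))
    · rintro ⟨x, y⟩ hxy hne
      rw [Finset.mem_product, Finset.mem_range, Finset.mem_range] at hxy
      intro he
      have hxy' : y = x := congrArg Prod.fst he
      simp only at hne
      apply hne
      rw [hxy', qt_self hf hn hxy.1, map_zero, zero_smul, map_zero, LinearMap.zero_apply]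
    · rintro ⟨x, y⟩ hxy
      rw [Finset.mem_product] at hxy ⊢
      exact ⟨hxy.2, hxy.1⟩
    · rintro ⟨x, y⟩ _
      rfl

end Pool.Agent.X41.Inf3
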