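import Mathlib

set_option autoImplicit false

/-!
# Polynomial identities of nonassociative algebras and a three-dimensional algebra

`K{X}` is Mathlib's `FreeNonUnitalNonAssocAlgebra K ℕ`.  A `K`-algebra is a `K`-vector space with a
`K`-bilinear multiplication (`NonUnitalNonAssocRing`, `Module`, `IsScalarTower`, `SMulCommClass`).
-/

namespace Pool.Agent.X41.Inf3

universe u

/-- `f ∈ K{X}` is a polynomial identity of the `K`-algebra `R`: it vanishes under every
substitution of elements of `R` for the variables. -/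
def IsIdentity (K : Type u) [Field K] (R : Type u) [NonUnitalNonAssocRing R] [Module K R]
    [IsScalarTower K R R] [SMulCommClass K R R] (f : FreeNonUnitalNonAssocAlgebra K ℕ) : Prop :=
  ∀ r : ℕ → R, FreeNonUnitalNonAssocAlgebra.lift K r f = 0

/-- The identity `f` follows from the identities in `S`: every `K`-algebra satisfying all
identities in `S` satisfies `f`. -/
def Follows (K : Type u) [Field K] (S : Set (FreeNonUnitalNonAssocAlgebra K ℕ))
    (f : FreeNonUnitalNonAssocAlgebra K ℕ) : Prop :=
  ∀ (B : Type u) [NonUnitalNonAssocRing B] [Module K B] [IsScalarTower K B B]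
    [SMulCommClass K B B], (∀ g ∈ S, IsIdentity K B g) → IsIdentity K B f

/-- `R` is finitely based: some finite set of identities of `R` implies all identities of `R`. -/
def FinitelyBased (K : Type u) [Field K] (R : Type u) [NonUnitalNonAssocRing R] [Module K R]
    [IsScalarTower K R R] [SMulCommClass K R R] : Prop :=
  ∃ S : Set (FreeNonUnitalNonAssocAlgebra K ℕ), S.Finite ∧ (∀ g ∈ S, IsIdentity K R g) ∧
    ∀ f, IsIdentity K R f → Follows K S f

/-- The vector space `K³`, with basis `d = (1,0,0)`, `e = (0,1,0)`, `z = (0,0,1)`, on which we put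
the commutative multiplication `d e = e d = e`, `e e = z`, all other products of basis elements
being zero. -/
def A3 (K : Type u) : Type u := K × K × K

/-- The element `a d + b e + c z`. -/
def A3.mk {K : Type u} (a b c : K) : A3 K := (a, b, c)

section

variable (K : Type u) [Field K]

instance : AddCommGroup (A3 K) := inferInstanceAs (AddCommGroup (K × K × K))

instance : Module K (A3 K) := inferInstanceAs (Module K (K × K × K))

instance : Mul (A3 K) :=
  ⟨fun x y => (0, x.1 * y.2.1 + y.1 * x.2.1, x.2.1 * y.2.1)⟩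

variable {K}

@[ext] lemma A3.ext {x y : A3 K} (h1 : x.1 = y.1) (h2 : x.2.1 = y.2.1) (h3 : x.2.2 = y.2.2) :
    x = y := Prod.ext h1 (Prod.ext h2 h3)

@[simp] lemma A3.mk_fst (a b c : K) : (A3.mk a b c).1 = a := rfl
@[simp] lemma A3.mk_snd (a b c : K) : (A3.mk a b c).2.1 = b := rfl
@[simp] lemma A3.mk_trd (a b c : K) : (A3.mk a b c).2.2 = c := rfl
@[simp] lemma A3.mul_fst (x y : A3 K) : (x * y).1 = 0 := rfl
@[simp] lemma A3.mul_snd (x y : A3 K) : (x * y).2.1 = x.1 * y.2.1 + y.1 * x.2.1 := rfl
@[simp] lemma A3.mul_trd (x y : A3 K) : (x * y).2.2 = x.2.1 * y.2.1 := rfl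
@[simp] lemma A3.add_fst (x y : A3 K) : (x + y).1 = x.1 + y.1 := rfl
@[simp] lemma A3.add_snd (x y : A3 K) : (x + y).2.1 = x.2.1 + y.2.1 := rfl
@[simp] lemma A3.add_trd (x y : A3 K) : (x + y).2.2 = x.2.2 + y.2.2 := rfl
@[simp] lemma A3.zero_fst : (0 : A3 K).1 = 0 := rfl
@[simp] lemma A3.zero_snd : (0 : A3 K).2.1 = 0 := rfl
@[simp] lemma A3.zero_trd : (0 : A3 K).2.2 = 0 := rfl
@[simp] lemma A3.smul_fst (c : K) (x : A3 K) : (c • x).1 = c * x.1 := rfl
@[simp] lemma A3.smul_snd (c : K) (x : A3 K) : (c • x).2.1 = c * x.2.1 := rfl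
@[simp] lemma A3.smul_trd (c : K) (x : A3 K) : (c • x).2.2 = c * x.2.2 := rfl

instance : NonUnitalNonAssocRing (A3 K) where
  left_distrib x y z := by ext <;> simp <;> ring
  right_distrib x y z := by ext <;> simp <;> ring
  zero_mul x := by ext <;> simp
  mul_zero x := by ext <;> simp

instance : IsScalarTower K (A3 K) (A3 K) where
  smul_assoc c x y := by ext <;> simp [smul_eq_mul] <;> ring

instance : SMulCommClass K (A3 K) (A3 K) where
  smul_comm c x y := by ext <;> simp [smul_eq_mul] <;> ring

lemma A3.finrank : Module.finrank K (A3 K) = 3 := by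
  have : Module.finrank K (K × K × K) = 3 := by simp
  exact this

lemma A3.comm (x y : A3 K) : x * y = y * x := by ext <;> simp <;> ring

end

end Pool.Agent.X41.Inf3
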