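import Pool.Agent.X41.Inf3.Big

set_option autoImplicit false

/-!
# The identities `g_M` and the conclusion
-/

namespace Pool.Agent.X41.Inf3

open MvPolynomial Finset

universe u

/-- the left-normed product `((t x_4) x_5) ⋯ x_{k+3}` -/
def chain (t : FreeMagma ℕ) : ℕ → FreeMagma ℕ
  | 0 => t
  | k + 1 => FreeMagma.mul (chain t k) (FreeMagma.of (4 + k))

/-- `(((x_i x_j) x_4) ⋯ x_{M+3}) (x_k x_l)` -/
def mon (M i j k l : ℕ) : FreeMagma ℕ :=
  FreeMagma.mul (chain (FreeMagma.mul (FreeMagma.of i) (FreeMagma.of j)) M)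
    (FreeMagma.mul (FreeMagma.of k) (FreeMagma.of l))

/-- the identity `g_M` of degree `M + 4` -/
noncomputable def gid (K : Type u) [Field K] (M : ℕ) : FreeNonUnitalNonAssocAlgebra K ℕ :=
  MonoidAlgebra.single (mon M 0 1 2 3) 1 + MonoidAlgebra.single (mon M 0 2 1 3) 1 +
    MonoidAlgebra.single (mon M 0 3 1 2) 1

variable {K : Type u} [Field K]

lemma lift_single {C : Type u} [NonUnitalNonAssocRing C] [Module K C] [IsScalarTower K C C]
    [SMulCommClass K C C] (r : ℕ → C) (m : FreeMagma ℕ) :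
    FreeNonUnitalNonAssocAlgebra.lift K r (MonoidAlgebra.single m 1) = ev r m := by
  simp [FreeNonUnitalNonAssocAlgebra.lift, ev]

lemma a3_chain_fst (r : ℕ → A3 K) (t : FreeMagma ℕ) (h : (ev r t).1 = 0) :
    ∀ k, (ev r (chain t k)).1 = 0
  | 0 => h
  | k + 1 => by rw [chain, ev_mul, A3.mul_fst]

lemma a3_chain_snd (r : ℕ → A3 K) (t : FreeMagma ℕ) (h : (ev r t).1 = 0) :
    ∀ k, (ev r (chain t k)).2.1 = (ev r t).2.1 * ∏ l ∈ range k, (r (4 + l)).1
  | 0 => by simp [chain]
  | k + 1 => by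
      rw [chain, ev_mul, A3.mul_snd, a3_chain_fst r t h k, a3_chain_snd r t h k, ev_of,
        Finset.prod_range_succ]
      ring

/-- `g_M` is an identity of the three-dimensional algebra. -/
lemma gid_identity [CharP K 2] (M : ℕ) : IsIdentity K (A3 K) (gid K M) := by
  intro r
  have h2 : (2 : K) = 0 := by exact_mod_cast CharP.cast_eq_zero K 2
  rw [gid, map_add, map_add, lift_single, lift_single, lift_single]
  have hf : ∀ i j : ℕ, (ev r (FreeMagma.mul (FreeMagma.of i) (FreeMagma.of j))).1 = 0 := by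
    intro i j; rw [ev_mul, A3.mul_fst]
  have hs : ∀ i j : ℕ, (ev r (FreeMagma.mul (FreeMagma.of i) (FreeMagma.of j))).2.1 =
      (r i).1 * (r j).2.1 + (r j).1 * (r i).2.1 := by
    intro i j; rw [ev_mul, A3.mul_snd, ev_of, ev_of]
  apply A3.ext
  · simp only [mon, ev_mul, A3.add_fst, A3.mul_fst, A3.zero_fst, add_zero]
  · simp only [A3.add_snd, A3.zero_snd]
    have : ∀ i j k l : ℕ, (ev r (mon M i j k l)).2.1 = 0 := by
      intro i j k l
      rw [mon, ev_mul, A3.mul_snd, a3_chain_fst r _ (hf i j), hf k l, zero_mul, zero_mul, add_zero]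
    rw [this, this, this, add_zero, add_zero]
  · simp only [A3.add_trd, A3.zero_trd]
    have : ∀ i j k l : ℕ, (ev r (mon M i j k l)).2.2 =
        ((r i).1 * (r j).2.1 + (r j).1 * (r i).2.1) * (∏ l ∈ range M, (r (4 + l)).1) *
        ((r k).1 * (r l).2.1 + (r l).1 * (r k).2.1) := by
      intro i j k l
      rw [mon, ev_mul, A3.mul_trd, a3_chain_snd r _ (hf i j), hs, hs]
    rw [this, this, this]
    generalize (∏ l ∈ range M, (r (4 + l)).1) = R
    linear_combination (R * ((r 0).1 * (r 2).1 * (r 1).2.1 * (r 3).2.1 +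
      (r 0).1 * (r 3).1 * (r 1).2.1 * (r 2).2.1 + (r 1).1 * (r 2).1 * (r 0).2.1 * (r 3).2.1 +
      (r 1).1 * (r 3).1 * (r 0).2.1 * (r 2).2.1 + (r 0).1 * (r 1).1 * (r 2).2.1 * (r 3).2.1 +
      (r 2).1 * (r 3).1 * (r 0).2.1 * (r 1).2.1)) * h2

/-! ### `g_M` fails in `B_{M+4}` -/

variable (K) in
/-- the basis vector `b_i` -/
noncomputable def bas (i : ℕ) : ℕ → MvPolynomial ℕ K := Pi.single i 1

lemma sm_bas (N i : ℕ) : sm K N (bas K i) = if i < N then X i else 0 := by
  classical
  rw [sm_apply]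
  simp [bas, Pi.single_apply]

/-- the generators of `B_N` -/
noncomputable def gen (N i : ℕ) : BN K N :=
  ⟨(bas K i, 0), by
    change (sm K N (bas K i)).totalDegree ≤ 1
    rw [sm_bas]
    split_ifs <;> simp⟩

lemma gen_fst (N i : ℕ) : (gen N i : BN K N).1.1 = bas K i := rfl

lemma Psi_bas (N : ℕ) {i j : ℕ} (hi : i < N) (hj : j < N) (p q : MvPolynomial ℕ K) :
    Psi K N (p • bas K i) (q • bas K j) =
      if i < j then tau K N (X i * (X j * (p * q))) else 0 := by
  classical
  rw [Psi_apply, Finset.sum_eq_single i, Finset.sum_eq_single j]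
  · simp [bas]
  · intro b _ hb
    simp [bas, hb]
  · intro h; exact absurd (Finset.mem_range.2 hj) h
  · intro b _ hb
    refine Finset.sum_eq_zero fun k _ => ?_
    simp [bas, hb]
  · intro h; exact absurd (Finset.mem_range.2 hi) h

variable [CharP K 2]

lemma bn_pair (N : ℕ) {i j : ℕ} (hi : i < N) (hj : j < N) :
    (ev (gen N : ℕ → BN K N) (FreeMagma.mul (FreeMagma.of i) (FreeMagma.of j))).1.1 =
      (X i : MvPolynomial ℕ K) • bas K j + (X j : MvPolynomial ℕ K) • bas K i := by
  rw [ev_mul, BN.mul_fst, ev_of, ev_of, gen_fst, gen_fst, sm_bas, sm_bas, if_pos hi, if_pos hj]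

lemma bn_mul_sm (N : ℕ) (a b : FreeMagma ℕ) :
    sm K N (ev (gen N : ℕ → BN K N) (FreeMagma.mul a b)).1.1 = 0 := by
  rw [ev_mul]
  exact bα_mul _ _

lemma bn_chain_sm (N : ℕ) (a b : FreeMagma ℕ) :
    ∀ k, sm K N (ev (gen N : ℕ → BN K N) (chain (FreeMagma.mul a b) k)).1.1 = 0
  | 0 => bn_mul_sm N a b
  | k + 1 => bn_mul_sm N _ _

lemma bn_chain (N : ℕ) (a b : FreeMagma ℕ) :
    ∀ k, 4 + k ≤ N → (ev (gen N : ℕ → BN K N) (chain (FreeMagma.mul a b) k)).1.1 =
      (∏ l ∈ range k, (X (4 + l) : MvPolynomial ℕ K)) •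
        (ev (gen N : ℕ → BN K N) (FreeMagma.mul a b)).1.1
  | 0, _ => by simp [chain]
  | k + 1, h => by
      rw [chain, ev_mul, BN.mul_fst, bn_chain_sm, zero_smul, zero_add, ev_of, gen_fst, sm_bas,
        if_pos (by omega), bn_chain N a b k (by omega), smul_smul, Finset.prod_range_succ, mul_comm]

lemma tau_full (M : ℕ) (p : MvPolynomial ℕ K)
    (hp : p = (∏ l ∈ range M, (X (4 + l) : MvPolynomial ℕ K)) * (X 0 * X 1 * X 2 * X 3)) :
    tau K (4 + M) p = 1 := by
  rw [hp, ← tau_prod (K := K) (N := 4 + M), Finset.prod_range_add]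
  congr 1
  simp only [Finset.prod_range_succ, Finset.prod_range_zero, one_mul]
  ring

/-- the last coordinate of the value of `mon` at the generators -/
lemma bn_mon (M i j k l : ℕ) (hi : i < 4) (hj : j < 4) (hk : k < 4) (hl : l < 4)
    (hp : (X i * X j * X k * X l : MvPolynomial ℕ K) = X 0 * X 1 * X 2 * X 3) :
    (ev (gen (4 + M) : ℕ → BN K (4 + M)) (mon M i j k l)).1.2 =
      (if i < k then 1 else 0) + (if i < l then 1 else 0) + (if j < k then 1 else 0) +
        (if j < l then 1 else 0) := by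
  rw [mon, ev_mul, BN.mul_snd, bn_chain _ _ _ M le_rfl, bn_pair _ (by omega) (by omega),
    bn_pair _ (by omega) (by omega)]
  simp only [smul_add, smul_smul, map_add, LinearMap.add_apply]
  rw [Psi_bas _ (by omega) (by omega), Psi_bas _ (by omega) (by omega),
    Psi_bas _ (by omega) (by omega), Psi_bas _ (by omega) (by omega)]
  rw [tau_full M, tau_full M, tau_full M, tau_full M]
  · ring
  all_goals rw [← hp]; ring

lemma gid_not (M : ℕ) : ¬ IsIdentity K (BN K (4 + M)) (gid K M) := by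
  intro h
  have h0 := h (gen (4 + M))
  rw [gid, map_add, map_add, lift_single, lift_single, lift_single] at h0
  have h1 := congrArg (fun t : BN K (4 + M) => t.1.2) h0
  simp only [BN.add_snd, BN.zero_snd] at h1
  rw [bn_mon M 0 1 2 3 (by omega) (by omega) (by omega) (by omega) rfl,
    bn_mon M 0 2 1 3 (by omega) (by omega) (by omega) (by omega) (by ring),
    bn_mon M 0 3 1 2 (by omega) (by omega) (by omega) (by omega) (by ring)] at h1
  have h2 : (2 : K) = 0 := by exact_mod_cast CharP.cast_eq_zero K 2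
  norm_num at h1
  apply one_ne_zero (α := K)
  linear_combination h1 - 4 * h2

/-- **Main theorem.** Over an infinite field of characteristic two the three-dimensional algebra
`A3 K` is not finitely based. -/
theorem not_finitelyBased [Infinite K] : ¬ FinitelyBased K (A3 K) := by
  classical
  rintro ⟨S, hS, hSid, hfol⟩
  obtain ⟨M, hM⟩ : ∃ M : ℕ, ∀ f ∈ S, ∀ m ∈ f.coeff.support, m.length < 4 + M := by
    refine ⟨∑ f ∈ hS.toFinset, ∑ m ∈ f.coeff.support, m.length, fun f hf m hm => ?_⟩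
    have h1 : m.length ≤ ∑ m ∈ f.coeff.support, m.length :=
      Finset.single_le_sum (f := fun m : FreeMagma ℕ => m.length) (fun _ _ => Nat.zero_le _) hm
    have h2 : ∑ m ∈ f.coeff.support, m.length ≤ ∑ f ∈ hS.toFinset, ∑ m ∈ f.coeff.support, m.length :=
      Finset.single_le_sum (f := fun f : FreeNonUnitalNonAssocAlgebra K ℕ =>
        ∑ m ∈ f.coeff.support, m.length) (fun _ _ => Nat.zero_le _) (hS.mem_toFinset.2 hf)
    omega
  exact gid_not M (hfol (gid K M) (gid_identity M) (BN K (4 + M))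
    fun f hf => BN_identity f (hSid f hf) (hM f hf))

end Pool.Agent.X41.Inf3
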