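import Pool.Agent.X41.Inf3.Defs

set_option autoImplicit false

/-!
# Evaluating nonassociative polynomials in algebras of the form `Λ ⊕ W ⊕ Z`
-/

namespace Pool.Agent.X41.Inf3

open MvPolynomial Finset

universe u v w

section Poly

variable (K : Type u) [Field K]

/-- the `d`-coordinate of a monomial, as a polynomial in the `d`-coordinates of the variables -/
noncomputable def al : FreeMagma ℕ → MvPolynomial ℕ K
  | FreeMagma.of x => X x
  | FreeMagma.mul _ _ => 0

/-- the coefficient of the `e`-coordinate of `x` in the `e`-coordinate of a monomial -/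
noncomputable def be : FreeMagma ℕ → ℕ → MvPolynomial ℕ K
  | FreeMagma.of y, x => if x = y then 1 else 0
  | FreeMagma.mul a b, x => al K a * be b x + al K b * be a x

/-- the contribution of a pair of variables to the last coordinate of a monomial -/
noncomputable def qq : FreeMagma ℕ → ℕ → ℕ → MvPolynomial ℕ K
  | FreeMagma.of _, _, _ => 0
  | FreeMagma.mul a b, x, y => be K a x * be K b y

/-- all variables of the monomial are below `n` -/
def bdd (n : ℕ) : FreeMagma ℕ → Prop
  | FreeMagma.of x => x < n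
  | FreeMagma.mul a b => bdd n a ∧ bdd n b

lemma bdd_mono {n m : ℕ} (h : n ≤ m) : ∀ t, bdd n t → bdd m t
  | FreeMagma.of x, hx => lt_of_lt_of_le hx h
  | FreeMagma.mul a b, hx => ⟨bdd_mono h a hx.1, bdd_mono h b hx.2⟩

lemma exists_bdd : ∀ t : FreeMagma ℕ, ∃ n, bdd n t
  | FreeMagma.of x => ⟨x + 1, Nat.lt_succ_self x⟩
  | FreeMagma.mul a b => by
      obtain ⟨n, hn⟩ := exists_bdd a
      obtain ⟨m, hm⟩ := exists_bdd b
      exact ⟨max n m, bdd_mono (le_max_left _ _) a hn, bdd_mono (le_max_right _ _) b hm⟩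

lemma exists_bdd_finset (s : Finset (FreeMagma ℕ)) : ∃ n, ∀ t ∈ s, bdd n t := by
  classical
  induction s using Finset.induction_on with
  | empty => exact ⟨0, by simp⟩
  | insert a s _ ih =>
      obtain ⟨n, hn⟩ := ih
      obtain ⟨m, hm⟩ := exists_bdd a
      refine ⟨max n m, fun t ht => ?_⟩
      rcases Finset.mem_insert.1 ht with rfl | ht
      · exact bdd_mono (le_max_right _ _) _ hm
      · exact bdd_mono (le_max_left _ _) _ (hn t ht)

end Poly

section Eval

variable {K : Type u} [Field K]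
variable {C : Type u} [NonUnitalNonAssocRing C] [Module K C] [IsScalarTower K C C]
  [SMulCommClass K C C]
variable {Λ : Type v} [CommRing Λ] [Algebra K Λ] {W : Type w} [AddCommGroup W] [Module K W]
  [Module Λ W] [IsScalarTower K Λ W]
variable {Z : Type w} [AddCommGroup Z] [Module K Z]
variable (α : C →ₗ[K] Λ) (β : C →ₗ[K] W) (γ : C →ₗ[K] Z) (Ψ : W →ₗ[K] W →ₗ[K] Z)

/-- value of a monomial -/
noncomputable def ev (r : ℕ → C) (m : FreeMagma ℕ) : C := FreeMagma.lift r m

lemma ev_of (r : ℕ → C) (x : ℕ) : ev r (FreeMagma.of x) = r x := rfl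
lemma ev_mul (r : ℕ → C) (a b : FreeMagma ℕ) : ev r (FreeMagma.mul a b) = ev r a * ev r b := rfl

lemma lift_eq (r : ℕ → C) (f : FreeNonUnitalNonAssocAlgebra K ℕ) :
    FreeNonUnitalNonAssocAlgebra.lift K r f = ∑ m ∈ f.coeff.support, f.coeff m • ev r m := rfl

variable {α β γ Ψ}

lemma al_ev (hα : ∀ x y, α (x * y) = 0) (r : ℕ → C) (m : FreeMagma ℕ) :
    α (ev r m) = aeval (fun x => α (r x)) (al K m) := by
  cases m with
  | of x => simp [al, ev_of]
  | mul a b => rw [ev_mul, hα]; simp [al]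

lemma be_ev (hα : ∀ x y, α (x * y) = 0) (hβ : ∀ x y, β (x * y) = α x • β y + α y • β x)
    (r : ℕ → C) (n : ℕ) : ∀ m : FreeMagma ℕ, bdd n m →
    β (ev r m) = ∑ x ∈ range n, aeval (fun x => α (r x)) (be K m x) • β (r x)
  | FreeMagma.of y, h => by
      have h : y < n := h
      rw [ev_of, Finset.sum_eq_single y]
      · simp [be]
      · intro b _ hb; simp [be, hb]
      · intro h'; exact absurd (Finset.mem_range.2 h) h'
  | FreeMagma.mul a b, h => by
      rw [ev_mul, hβ, be_ev hα hβ r n a h.1, be_ev hα hβ r n b h.2, al_ev hα, al_ev hα,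
        Finset.smul_sum, Finset.smul_sum, ← Finset.sum_add_distrib]
      refine Finset.sum_congr rfl fun x _ => ?_
      simp only [be, map_add, map_mul, add_smul, mul_smul]

lemma ga_ev (hα : ∀ x y, α (x * y) = 0) (hβ : ∀ x y, β (x * y) = α x • β y + α y • β x)
    (hγ : ∀ x y, γ (x * y) = Ψ (β x) (β y)) (hΨ : ∀ (p : Λ) v w, Ψ (p • v) w = Ψ v (p • w))
    (r : ℕ → C) (n : ℕ) (a b : FreeMagma ℕ) (h : bdd n (FreeMagma.mul a b)) :
    γ (ev r (FreeMagma.mul a b)) = ∑ x ∈ range n, ∑ y ∈ range n,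
      Ψ (aeval (fun x => α (r x)) (qq K (FreeMagma.mul a b) x y) • β (r x)) (β (r y)) := by
  rw [ev_mul, hγ, be_ev hα hβ r n a h.1, be_ev hα hβ r n b h.2, LinearMap.map_sum₂]
  refine Finset.sum_congr rfl fun x _ => ?_
  rw [map_sum]
  refine Finset.sum_congr rfl fun y _ => ?_
  rw [← hΨ, ← mul_smul, qq, map_mul, mul_comm]

/-- total coefficient polynomial of the `e`-coordinate -/
noncomputable def bet (f : FreeNonUnitalNonAssocAlgebra K ℕ) (x : ℕ) : MvPolynomial ℕ K :=
  ∑ m ∈ f.coeff.support, f.coeff m • be K m x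

/-- total coefficient polynomial of a pair in the last coordinate -/
noncomputable def qt (f : FreeNonUnitalNonAssocAlgebra K ℕ) (x y : ℕ) : MvPolynomial ℕ K :=
  ∑ m ∈ f.coeff.support, f.coeff m • qq K m x y

/-- the linear part of the last coordinate -/
noncomputable def gl (γ : C →ₗ[K] Z) (r : ℕ → C) : FreeMagma ℕ → Z
  | FreeMagma.of x => γ (r x)
  | FreeMagma.mul _ _ => 0

lemma beta_lift (hα : ∀ x y, α (x * y) = 0) (hβ : ∀ x y, β (x * y) = α x • β y + α y • β x)
    (r : ℕ → C) (n : ℕ) (f : FreeNonUnitalNonAssocAlgebra K ℕ)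
    (hn : ∀ m ∈ f.coeff.support, bdd n m) :
    β (FreeNonUnitalNonAssocAlgebra.lift K r f) =
      ∑ x ∈ range n, aeval (fun x => α (r x)) (bet f x) • β (r x) := by
  rw [lift_eq, map_sum]
  have h : ∀ m ∈ f.coeff.support, β (f.coeff m • ev r m) =
      ∑ x ∈ range n, f.coeff m • (aeval (fun x => α (r x)) (be K m x) • β (r x)) := by
    intro m hm
    rw [map_smul, be_ev hα hβ r n m (hn m hm), Finset.smul_sum]
  rw [Finset.sum_congr rfl h, Finset.sum_comm]
  refine Finset.sum_congr rfl fun x _ => ?_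
  simp only [bet, map_sum, map_smul, Finset.sum_smul, smul_assoc]

lemma gamma_lift (hα : ∀ x y, α (x * y) = 0) (hβ : ∀ x y, β (x * y) = α x • β y + α y • β x)
    (hγ : ∀ x y, γ (x * y) = Ψ (β x) (β y)) (hΨ : ∀ (p : Λ) v w, Ψ (p • v) w = Ψ v (p • w))
    (r : ℕ → C) (n : ℕ) (f : FreeNonUnitalNonAssocAlgebra K ℕ)
    (hn : ∀ m ∈ f.coeff.support, bdd n m) :
    γ (FreeNonUnitalNonAssocAlgebra.lift K r f) =
      (∑ m ∈ f.coeff.support, f.coeff m • gl γ r m) + ∑ x ∈ range n, ∑ y ∈ range n,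
        Ψ (aeval (fun x => α (r x)) (qt f x y) • β (r x)) (β (r y)) := by
  rw [lift_eq, map_sum]
  have h : ∀ m ∈ f.coeff.support, γ (f.coeff m • ev r m) = f.coeff m • gl γ r m +
      ∑ x ∈ range n, ∑ y ∈ range n,
        f.coeff m • Ψ (aeval (fun x => α (r x)) (qq K m x y) • β (r x)) (β (r y)) := by
    intro m hm
    rw [map_smul]
    cases m with
    | of x => simp [ev_of, gl, qq]
    | mul a b =>
        rw [ga_ev hα hβ hγ hΨ r n a b (hn _ hm), Finset.smul_sum]
        simp only [gl, smul_zero, zero_add, Finset.smul_sum]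
  rw [Finset.sum_congr rfl h, Finset.sum_add_distrib]
  congr 1
  rw [Finset.sum_comm]
  refine Finset.sum_congr rfl fun x _ => ?_
  rw [Finset.sum_comm]
  refine Finset.sum_congr rfl fun y _ => ?_
  simp only [qt, map_sum, map_smul, Finset.sum_smul, smul_assoc, LinearMap.sum_apply,
    LinearMap.smul_apply]

end Eval

end Pool.Agent.X41.Inf3
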