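import Pool.Agent.X41.Inf3.Final

set_option autoImplicit false

/-!
# The three-dimensional algebra as a solvable Jordan algebra in characteristic two
-/

namespace Pool.Agent.X41.Inf3

universe u

/-- `B` satisfies all identities in `S`, i.e. `B` lies in the variety defined by `S`. -/
def Models (K : Type u) [Field K] (S : Set (FreeNonUnitalNonAssocAlgebra K ℕ)) (B : Type u)
    [NonUnitalNonAssocRing B] [Module K B] [IsScalarTower K B B] [SMulCommClass K B B] : Prop :=
  ∀ g ∈ S, IsIdentity K B g

/-- `B` is a Jordan algebra: `x y = y x` and `(x² y) x = x² (y x)`. -/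
def IsJordanAlg (B : Type u) [NonUnitalNonAssocRing B] : Prop :=
  (∀ x y : B, x * y = y * x) ∧ ∀ x y : B, ((x * x) * y) * x = (x * x) * (y * x)

/-- The fully linearised Jordan identity. -/
def LinJordan (B : Type u) [NonUnitalNonAssocRing B] : Prop :=
  ∀ x y z w : B, ((x * z) * y) * w + ((z * w) * y) * x + ((w * x) * y) * z =
    (x * z) * (y * w) + (z * w) * (y * x) + (w * x) * (y * z)

/-- the derived series `B^{(0)} = B`, `B^{(k+1)} = B^{(k)} B^{(k)}` -/
def der (K : Type u) [Field K] (B : Type u) [NonUnitalNonAssocRing B] [Module K B] :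
    ℕ → Submodule K B
  | 0 => ⊤
  | k + 1 => Submodule.span K {t | ∃ x ∈ der K B k, ∃ y ∈ der K B k, x * y = t}

variable {K : Type u} [Field K]

section Monomials

variable {B : Type u} [NonUnitalNonAssocRing B] [Module K B] [IsScalarTower K B B]
  [SMulCommClass K B B]

/-- if all values of a difference of two monomials vanish on `A3 K`, then so they do on `B` -/
lemma eq_of_models (hB : Models K {f | IsIdentity K (A3 K) f} B) (m m' : FreeMagma ℕ)
    (h : ∀ r : ℕ → A3 K, ev r m = ev r m') (r : ℕ → B) : ev r m = ev r m' := by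
  have h1 := hB (MonoidAlgebra.single m 1 - MonoidAlgebra.single m' 1) (by
    intro r
    rw [map_sub, lift_single, lift_single, h r, sub_self]) r
  rw [map_sub, lift_single, lift_single] at h1
  exact sub_eq_zero.1 h1

lemma zero_of_models (hB : Models K {f | IsIdentity K (A3 K) f} B) (m : FreeMagma ℕ)
    (h : ∀ r : ℕ → A3 K, ev r m = 0) (r : ℕ → B) : ev r m = 0 := by
  have h1 := hB (MonoidAlgebra.single m 1) (by
    intro r
    rw [lift_single, h r]) r
  rwa [lift_single] at h1

lemma models_comm (hB : Models K {f | IsIdentity K (A3 K) f} B) (x y : B) : x * y = y * x := by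
  have := eq_of_models hB (FreeMagma.mul (FreeMagma.of 0) (FreeMagma.of 1))
    (FreeMagma.mul (FreeMagma.of 1) (FreeMagma.of 0)) (fun r => by
      rw [ev_mul, ev_mul]; exact A3.comm _ _) (fun i => if i = 0 then x else y)
  simp only [ev_mul, ev_of] at this
  simpa using this

variable [CharP K 2]

lemma models_sq (hB : Models K {f | IsIdentity K (A3 K) f} B) (x y : B) : (x * x) * y = 0 := by
  have h2 : (2 : K) = 0 := by exact_mod_cast CharP.cast_eq_zero K 2
  have := zero_of_models hB (FreeMagma.mul (FreeMagma.mul (FreeMagma.of 0) (FreeMagma.of 0))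
    (FreeMagma.of 1)) (fun r => by
      simp only [ev_mul, ev_of]
      apply A3.ext
      · simp
      · simp only [A3.mul_snd, A3.mul_fst, A3.zero_snd]
        linear_combination ((r 1).1 * (r 0).1 * (r 0).2.1) * h2
      · simp only [A3.mul_snd, A3.mul_trd, A3.zero_trd]
        linear_combination ((r 0).1 * (r 0).2.1 * (r 1).2.1) * h2)
      (fun i => if i = 0 then x else y)
  simp only [ev_mul, ev_of] at this
  simpa using this

lemma models_jordan (hB : Models K {f | IsIdentity K (A3 K) f} B) : IsJordanAlg B :=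
  ⟨models_comm hB, fun x y => by rw [models_sq hB, models_sq hB, zero_mul]⟩

lemma models_lin (hB : Models K {f | IsIdentity K (A3 K) f} B) : LinJordan B := by
  intro x y z w
  have h2 : (2 : K) = 0 := by exact_mod_cast CharP.cast_eq_zero K 2
  let v : ℕ → FreeNonUnitalNonAssocAlgebra K ℕ := FreeNonUnitalNonAssocAlgebra.of K
  have := hB (((v 0 * v 2) * v 1) * v 3 + ((v 2 * v 3) * v 1) * v 0 + ((v 3 * v 0) * v 1) * v 2 -
    ((v 0 * v 2) * (v 1 * v 3) + (v 2 * v 3) * (v 1 * v 0) + (v 3 * v 0) * (v 1 * v 2)))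
    (by
      intro r
      simp only [v, map_add, map_sub, map_mul, FreeNonUnitalNonAssocAlgebra.lift_of_apply]
      rw [sub_eq_zero]
      apply A3.ext
      · simp
      · simp only [A3.mul_snd, A3.mul_fst, A3.add_snd]
        linear_combination ((r 1).1 * ((r 0).1 * (r 2).2.1 * (r 3).1 +
          (r 2).1 * (r 0).2.1 * (r 3).1 + (r 2).1 * (r 3).2.1 * (r 0).1)) * h2
      · simp only [A3.mul_snd, A3.mul_fst, A3.mul_trd, A3.add_trd]
        linear_combination ((r 1).1 * ((r 0).1 * (r 2).2.1 * (r 3).2.1 +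
          (r 2).1 * (r 0).2.1 * (r 3).2.1 + (r 3).1 * (r 2).2.1 * (r 0).2.1) -
          ((r 0).1 * (r 1).1 * (r 2).2.1 * (r 3).2.1 + (r 2).1 * (r 1).1 * (r 0).2.1 * (r 3).2.1 +
          (r 3).1 * (r 1).1 * (r 2).2.1 * (r 0).2.1 + (r 0).1 * (r 3).1 * (r 1).2.1 * (r 2).2.1 +
          (r 2).1 * (r 3).1 * (r 0).2.1 * (r 1).2.1 + (r 0).1 * (r 2).1 * (r 3).2.1 * (r 1).2.1)) * h2)
    (fun i => if i = 0 then x else if i = 1 then y else if i = 2 then z else w)
  simp only [v, map_add, map_sub, map_mul, FreeNonUnitalNonAssocAlgebra.lift_of_apply] at this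
  rw [sub_eq_zero] at this
  simpa using this

omit [CharP K 2] in
lemma models_solv8 (hB : Models K {f | IsIdentity K (A3 K) f} B) (a b c d e : B) :
    ((a * b) * (c * d)) * e = 0 := by
  have := zero_of_models hB (FreeMagma.mul (FreeMagma.mul (FreeMagma.mul (FreeMagma.of 0)
    (FreeMagma.of 1)) (FreeMagma.mul (FreeMagma.of 2) (FreeMagma.of 3))) (FreeMagma.of 4))
    (fun r => by
      simp only [ev_mul, ev_of]
      apply A3.ext <;> simp)
      (fun i => if i = 0 then a else if i = 1 then b else if i = 2 then c else if i = 3 then d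
        else e)
  simp only [ev_mul, ev_of] at this
  simpa using this

omit [CharP K 2] in
lemma der_two_mul (hB : Models K {f | IsIdentity K (A3 K) f} B) (u : B) (hu : u ∈ der K B 2)
    (e : B) : u * e = 0 := by
  have key : ∀ p ∈ der K B 1, ∀ q ∈ der K B 1, ∀ e : B, (p * q) * e = 0 := by
    intro p hp q hq e
    have hp' : p ∈ Submodule.span K {t | ∃ x ∈ der K B 0, ∃ y ∈ der K B 0, x * y = t} := hp
    have hq' : q ∈ Submodule.span K {t | ∃ x ∈ der K B 0, ∃ y ∈ der K B 0, x * y = t} := hq
    induction hp' using Submodule.span_induction with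
    | mem p hp1 =>
        obtain ⟨a, -, b, -, rfl⟩ := hp1
        induction hq' using Submodule.span_induction with
        | mem q hq1 =>
            obtain ⟨c, -, d, -, rfl⟩ := hq1
            exact models_solv8 hB a b c d e
        | zero => simp
        | add q q' h1 h2 ih1 ih2 => rw [mul_add, add_mul, ih1 h1, ih2 h2, add_zero]
        | smul c q h1 ih => rw [mul_smul_comm, smul_mul_assoc, ih h1, smul_zero]
    | zero => simp
    | add p p' h1 h2 ih1 ih2 => rw [add_mul, add_mul, ih1 h1, ih2 h2, add_zero]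
    | smul c p h1 ih => rw [smul_mul_assoc, smul_mul_assoc, ih h1, smul_zero]
  have hu' : u ∈ Submodule.span K {t | ∃ x ∈ der K B 1, ∃ y ∈ der K B 1, x * y = t} := hu
  induction hu' using Submodule.span_induction with
  | mem t ht =>
      obtain ⟨p, hp, q, hq, rfl⟩ := ht
      exact key p hp q hq e
  | zero => simp
  | add p p' h1 h2 ih1 ih2 => rw [add_mul, ih1 h1, ih2 h2, add_zero]
  | smul c p h1 ih => rw [smul_mul_assoc, ih h1, smul_zero]

omit [CharP K 2] in
lemma models_solvable (hB : Models K {f | IsIdentity K (A3 K) f} B) : der K B 3 = ⊥ := by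
  rw [eq_bot_iff]
  change Submodule.span K {t | ∃ x ∈ der K B 2, ∃ y ∈ der K B 2, x * y = t} ≤ ⊥
  rw [Submodule.span_le]
  rintro t ⟨x, hx, y, hy, rfl⟩
  exact (Submodule.mem_bot K).2 (der_two_mul hB x hx y)

end Monomials

/-- the variety generated by `A3 K` is not finitely based -/
theorem variety_not_finitelyBased [CharP K 2] [Infinite K] :
    ¬ ∃ S' : Set (FreeNonUnitalNonAssocAlgebra K ℕ), S'.Finite ∧
      ∀ (B : Type u) [NonUnitalNonAssocRing B] [Module K B] [IsScalarTower K B B]
        [SMulCommClass K B B], Models K S' B ↔ Models K {f | IsIdentity K (A3 K) f} B := by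
  rintro ⟨S', hfin, hS'⟩
  refine not_finitelyBased (K := K) ⟨S', hfin, (hS' (A3 K)).2 (fun g hg => hg), ?_⟩
  intro f hf B _ _ _ _ hB
  exact (hS' B).1 hB f hf

end Pool.Agent.X41.Inf3
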