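import Pool.Agent.X41.Inf3.Gen

set_option autoImplicit false

/-!
# What an identity of the three-dimensional algebra says about its coefficients
-/

namespace Pool.Agent.X41.Inf3

open MvPolynomial Finset

universe u

variable {K : Type u} [Field K]

def a3α : A3 K →ₗ[K] K where
  toFun x := x.1
  map_add' _ _ := rfl
  map_smul' _ _ := rfl

def a3β : A3 K →ₗ[K] K where
  toFun x := x.2.1
  map_add' _ _ := rfl
  map_smul' _ _ := rfl

def a3γ : A3 K →ₗ[K] K where
  toFun x := x.2.2
  map_add' _ _ := rfl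
  map_smul' _ _ := rfl

lemma a3_beta (r : ℕ → A3 K) (n : ℕ) (f : FreeNonUnitalNonAssocAlgebra K ℕ)
    (hn : ∀ m ∈ f.coeff.support, bdd n m) :
    (FreeNonUnitalNonAssocAlgebra.lift K r f).2.1 =
      ∑ x ∈ range n, eval (fun x => (r x).1) (bet f x) * (r x).2.1 := by
  have := beta_lift (α := (a3α : A3 K →ₗ[K] K)) (β := (a3β : A3 K →ₗ[K] K)) (fun x y => rfl)
    (fun x y => rfl) r n f hn
  simpa [a3α, a3β, smul_eq_mul] using this

lemma a3_gamma (r : ℕ → A3 K) (n : ℕ) (f : FreeNonUnitalNonAssocAlgebra K ℕ)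
    (hn : ∀ m ∈ f.coeff.support, bdd n m) :
    (FreeNonUnitalNonAssocAlgebra.lift K r f).2.2 =
      (∑ m ∈ f.coeff.support, f.coeff m * gl (a3γ : A3 K →ₗ[K] K) r m) +
      ∑ x ∈ range n, ∑ y ∈ range n,
        eval (fun x => (r x).1) (qt f x y) * (r x).2.1 * (r y).2.1 := by
  have := gamma_lift (α := (a3α : A3 K →ₗ[K] K)) (β := (a3β : A3 K →ₗ[K] K))
    (γ := (a3γ : A3 K →ₗ[K] K)) (Ψ := LinearMap.mul K K) (fun x y => rfl)
    (fun x y => rfl) (fun x y => rfl) (fun p v w => by simp [mul_assoc, mul_left_comm]) r n f hn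
  have e : (FreeNonUnitalNonAssocAlgebra.lift K r f).2.2 =
    (a3γ : A3 K →ₗ[K] K) (FreeNonUnitalNonAssocAlgebra.lift K r f) := rfl
  rw [e]
  simpa [a3α, a3β, smul_eq_mul] using this

variable [Infinite K] {f : FreeNonUnitalNonAssocAlgebra K ℕ} (hf : IsIdentity K (A3 K) f)
  {n : ℕ} (hn : ∀ m ∈ f.coeff.support, bdd n m)

include hf hn

omit [Infinite K] in
lemma coeff_of_eq_zero (x : ℕ) : f.coeff (FreeMagma.of x) = 0 := by
  classical
  by_contra hx
  have h : (FreeNonUnitalNonAssocAlgebra.lift K (fun y => if y = x then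
      (A3.mk 0 0 1 : A3 K) else A3.mk 0 0 0) f).2.2 = 0 := by
    rw [hf _]; rfl
  rw [a3_gamma _ n f hn] at h
  have h1 : ∀ y, (if y = x then (A3.mk 0 0 1 : A3 K) else A3.mk 0 0 0).2.1 = 0 := by
    intro y; split_ifs <;> rfl
  simp only [h1, mul_zero, Finset.sum_const_zero, add_zero] at h
  rw [Finset.sum_eq_single (FreeMagma.of x)] at h
  · simp only [gl, a3γ, LinearMap.coe_mk, AddHom.coe_mk, if_true, A3.mk_trd, mul_one] at h
    exact hx h
  · intro m _ hm
    cases m with
    | of y =>
        have : y ≠ x := fun h => hm (by rw [h])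
        simp [gl, a3γ, this]
    | mul a b => simp [gl]
  · intro h'
    exact absurd (Finsupp.mem_support_iff.2 hx) h'

lemma bet_eq_zero {x : ℕ} (hx : x < n) : bet f x = 0 := by
  classical
  apply MvPolynomial.funext
  intro a
  have h : (FreeNonUnitalNonAssocAlgebra.lift K (fun y => A3.mk (a y) (if y = x then 1 else 0) 0) f).2.1 = 0 := by
    rw [hf _]; rfl
  rw [a3_beta _ n f hn, Finset.sum_eq_single x] at h
  · simpa using h
  · intro y _ hy; simp [hy]
  · intro h'; exact absurd (Finset.mem_range.2 hx) h'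

/-- the full family of quadratic relations -/
lemma quad (a b : ℕ → K) :
    ∑ x ∈ range n, ∑ y ∈ range n, eval a (qt f x y) * b x * b y = 0 := by
  have h : (FreeNonUnitalNonAssocAlgebra.lift K (fun y => A3.mk (a y) (b y) 0) f).2.2 = 0 := by
    rw [hf _]; rfl
  rw [a3_gamma _ n f hn] at h
  have h1 : ∑ m ∈ f.coeff.support, f.coeff m * gl (a3γ : A3 K →ₗ[K] K)
      (fun y => A3.mk (a y) (b y) 0) m = 0 := by
    refine Finset.sum_eq_zero fun m _ => ?_
    cases m with
    | of y => simp [gl, a3γ]
    | mul a b => simp [gl]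
  rw [h1, zero_add] at h
  exact h

lemma qt_self {x : ℕ} (hx : x < n) : qt f x x = 0 := by
  classical
  apply MvPolynomial.funext
  intro a
  have h := quad hf hn a (fun y => if y = x then 1 else 0)
  rw [Finset.sum_eq_single x] at h
  · rw [Finset.sum_eq_single x] at h
    · simpa using h
    · intro y _ hy; simp [hy]
    · intro h'; exact absurd (Finset.mem_range.2 hx) h'
  · intro y _ hy; simp [hy]
  · intro h'; exact absurd (Finset.mem_range.2 hx) h'

lemma qt_swap {x y : ℕ} (hx : x < n) (hy : y < n) : qt f x y + qt f y x = 0 := by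
  classical
  apply MvPolynomial.funext
  intro a
  have h := quad hf hn a (fun t => (if t = x then 1 else 0) + (if t = y then 1 else 0))
  have hx' : x ∈ range n := Finset.mem_range.2 hx
  have hy' : y ∈ range n := Finset.mem_range.2 hy
  have e1 : ∀ u, ∑ v ∈ range n, eval a (qt f u v) * ((if u = x then 1 else 0) +
      (if u = y then 1 else 0)) * ((if v = x then 1 else 0) + (if v = y then 1 else 0)) =
      (eval a (qt f u x) + eval a (qt f u y)) * ((if u = x then 1 else 0) +
      (if u = y then 1 else 0)) := by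
    intro u
    simp only [mul_add, Finset.sum_add_distrib, mul_ite, mul_one, mul_zero, Finset.sum_ite_eq',
      hx', hy', if_true]
    split_ifs <;> ring
  simp only [e1] at h
  simp only [mul_add, Finset.sum_add_distrib, mul_ite, mul_one, mul_zero, Finset.sum_ite_eq',
      hx', hy', if_true, qt_self hf hn hx, qt_self hf hn hy, map_zero, zero_add, add_zero] at h
  rw [map_add, map_zero, ← h]

end Pool.Agent.X41.Inf3
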